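import Pool.Agent.V5helper91.QC.Final

/-!
# A nowhere vanishing map from an ample line bundle to the tangent bundle in characteristic two

Over every algebraically closed field `k` of characteristic `2` and for every odd `n = 2 m + 1 ≥ 3`
there is a smooth proper integral scheme `X` over `k`, of dimension `n`, which is not isomorphic to
projective space (not even as an abstract scheme), with an ample line bundle `L` and a homomorphism
from `L` to the tangent bundle of `X` which is nonzero at every point.

The scheme is the quadric `z ^ 2 = x_0 y_0 + ... + x_m y_m`, the line bundle is `O(1)`, and the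
homomorphism sends a linear form `l` to the vector field `l * (d / dz)`, which is tangent to the
quadric because the characteristic is two.
-/

set_option autoImplicit false

open AlgebraicGeometry CategoryTheory
open Pool.Agent.V5helper91.QC

namespace Pool.Agent.Results.MP_63fcef_ag.OddQuadricsCharTwo

theorem result (k : Type) [Field k] [IsAlgClosed k] [CharP k 2] (m : ℕ) (hm : 1 ≤ m) :
    ∃ (X : Scheme.{0}) (p : X ⟶ Spec (CommRingCat.of k)), IsIntegral X ∧ IsProper p ∧
      SmoothOfRelativeDimension (2 * m + 1) p ∧ IsEmpty (X ≅ PP k (2 * m + 1)) ∧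
      ∃ L : LineBundle X, L.IsAmple ∧ ∃ φ : ToTangent p L, φ.NowhereZero := by
  classical
  let Q := QQ k (Fin (m + 1)) 0
  have hint : IsIntegral Q.X := Q.isIntegral (0, false)
  have hcard : Fintype.card (Fin (m + 1) × Bool) = (2 * m + 1) + 1 := by
    rw [Fintype.card_prod, Fintype.card_fin, Fintype.card_bool]
    omega
  obtain ⟨δ, hδh, hδz⟩ := exists_der k (Fin (m + 1)) 0
  have hδ : ∀ x ∈ Q.M, ∃ a : k, δ x = algebraMap k _ a := by
    intro x hx
    have hx' : x ∈ Submodule.span k (Set.range Q.h ∪ {Q.z}) := hx
    clear hx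
    induction hx' using Submodule.span_induction with
    | mem x hx =>
      rcases hx with ⟨l, rfl⟩ | hx
      · exact ⟨0, by rw [map_zero]; exact hδh l⟩
      · have h1 : x = Q.z := hx
        exact ⟨1, by rw [map_one, h1]; exact hδz⟩
    | zero => exact ⟨0, by rw [map_zero, map_zero]⟩
    | add x y hx hy ihx ihy =>
      obtain ⟨a, ha⟩ := ihx
      obtain ⟨b, hb⟩ := ihy
      exact ⟨a + b, by rw [map_add, map_add, ha, hb]⟩
    | smul r x hx ihx =>
      obtain ⟨a, ha⟩ := ihx
      exact ⟨r * a, by rw [Derivation.map_smul, ha, map_mul, Algebra.smul_def]⟩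
  refine ⟨Q.X, Q.p, hint, Q.isProper, ?_, ?_, Q.L (0, false), Q.ample (0, false),
    Q.toTangent (0, false) δ hδ hδh, Q.nowhereZero (0, false) δ hδ hδh hδz⟩
  · apply Q.smooth (0, false) (2 * m + 1)
    · rw [Nat.card_eq_fintype_card, hcard]
    · intro l
      obtain ⟨w, -, hw⟩ := QQ_poly k (Fin (m + 1)) 0 l
      exact ⟨w, hw⟩
  · exact not_iso k (Fin (m + 1)) 0 (2 * m + 1) hcard (by omega)

end Pool.Agent.Results.MP_63fcef_ag.OddQuadricsCharTwo
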